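import Mathlib
import Pool.Agent.Q96.QuasiBanach
import Pool.Agent.Q96.Envelope

/-!
# Banach envelopes of spaces with the Schur `p`-property need not have the Schur property
-/

set_option autoImplicit false

open Filter Topology Q96.QuasiBanach Q96.SchurP Q96.Envelope

namespace Pool.Agent.Results.MP_4b0054_an.EnvelopeNotSchur

/-- the Schur property of a normed space: weakly null sequences are norm null -/
def IsSchur (𝕜 E : Type) [RCLike 𝕜] [NormedAddCommGroup E] [NormedSpace 𝕜 E] : Prop :=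
  ∀ s : ℕ → E, (∀ f : StrongDual 𝕜 E, Tendsto (fun n => f (s n)) atTop (𝓝 0)) →
    Tendsto s atTop (𝓝 0)

section construction

variable (p : ℝ)

lemma exists_N (hp1 : p < 1) (K : ℝ) : ∃ N : ℕ, 1 ≤ N ∧ K ≤ (N : ℝ) ^ (1 - p) := by
  have h1 : Tendsto (fun m : ℕ => (m : ℝ) ^ (1 - p)) atTop atTop :=
    (tendsto_rpow_atTop (by linarith)).comp tendsto_natCast_atTop_atTop
  obtain ⟨m, hm1, hm2⟩ := ((h1.eventually_ge_atTop K).and (eventually_ge_atTop 1)).exists
  exact ⟨m, hm2, hm1⟩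

/-- the parameters of the construction -/
structure Par where
  A : ℕ → Finset ℕ
  N : ℕ → ℕ
  b : ℕ → ℕ
  hA : Function.Surjective A
  hN : ∀ n, 1 ≤ N n
  hK : ∀ n, 2 ^ (n + 1) * ((A n).card : ℝ) ≤ (N n : ℝ) ^ (1 - p)
  hb0 : b 0 = 0
  hb : ∀ n, b (n + 1) = b n + N n

lemma exists_par (hp1 : p < 1) : Nonempty (Par p) := by
  obtain ⟨A, hA⟩ := exists_surjective_nat (Finset ℕ)
  choose N h1 h2 using fun n : ℕ => exists_N p hp1 (2 ^ (n + 1) * ((A n).card : ℝ))
  exact ⟨⟨A, N, fun n => ∑ j ∈ Finset.range n, N j, hA, h1, h2, by simp, fun n => by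
    rw [Finset.sum_range_succ]⟩⟩

variable {p}

namespace Par

variable (P : Par p)

lemma b_mono : Monotone P.b := monotone_nat_of_le_succ fun n => by rw [P.hb]; omega

lemma b_ge (n : ℕ) : n ≤ P.b n := by
  induction n with
  | zero => omega
  | succ n ih => rw [P.hb]; have := P.hN n; omega

/-- the bound on the old coordinates -/
def K (k : ℕ) : ℕ := ∑ n ∈ Finset.range k, ((P.A n).sup id + 1)

lemma K_mono : Monotone P.K := monotone_nat_of_le_succ fun n => by
  unfold K; rw [Finset.sum_range_succ]; omega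

lemma K_ge (k : ℕ) : k ≤ P.K k := by
  induction k with
  | zero => omega
  | succ k ih =>
    have : P.K (k + 1) = P.K k + ((P.A k).sup id + 1) := Finset.sum_range_succ _ _
    omega

lemma lt_K {n k i : ℕ} (h : n < k) (hi : i ∈ P.A n) : i < P.K k := by
  have h1 : i ≤ (P.A n).sup id := Finset.le_sup (f := id) hi
  have h2 : (P.A n).sup id + 1 ≤ P.K (n + 1) := by
    unfold K; rw [Finset.sum_range_succ]; omega
  have h3 := P.K_mono (Nat.succ_le_of_lt h)
  simp only [Nat.succ_eq_add_one] at h3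
  omega

/-- the support of the `n`-th block -/
def B (n : ℕ) : Finset ℕ := Finset.Ico (P.b n) (P.b (n + 1))

lemma card_B (n : ℕ) : (P.B n).card = P.N n := by
  unfold B
  rw [Nat.card_Ico, P.hb]; omega

lemma disj {m n i : ℕ} (h : m ≠ n) (hi : i ∈ P.B m) (hi' : i ∈ P.B n) : False := by
  unfold B at hi hi'
  rw [Finset.mem_Ico] at hi hi'
  rcases lt_or_gt_of_ne h with h | h
  · have := P.b_mono (Nat.succ_le_of_lt h)
    simp only [Nat.succ_eq_add_one] at this
    omega
  · have := P.b_mono (Nat.succ_le_of_lt h)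
    simp only [Nat.succ_eq_add_one] at this
    omega

/-- old coordinates -/
def L (s : Finset ℕ) : Finset (ℕ ⊕ ℕ) := s.map ⟨Sum.inl, Sum.inl_injective⟩

/-- new coordinates -/
def Rr (s : Finset ℕ) : Finset (ℕ ⊕ ℕ) := s.map ⟨Sum.inr, Sum.inr_injective⟩

lemma mem_L (s : Finset ℕ) (x : ℕ ⊕ ℕ) : x ∈ L s ↔ ∃ i ∈ s, Sum.inl i = x := by
  unfold L; rw [Finset.mem_map]; rfl

lemma mem_Rr (s : Finset ℕ) (x : ℕ ⊕ ℕ) : x ∈ Rr s ↔ ∃ i ∈ s, Sum.inr i = x := by
  unfold Rr; rw [Finset.mem_map]; rfl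

variable (𝕜 : Type) [RCLike 𝕜]

/-- the sum of the old basis vectors over `A n` -/
noncomputable def u (n : ℕ) : (ℕ ⊕ ℕ) →₀ 𝕜 := ∑ i ∈ P.A n, Finsupp.single (Sum.inl i) 1

/-- the average of the new basis vectors over the `n`-th block -/
noncomputable def g (n : ℕ) : (ℕ ⊕ ℕ) →₀ 𝕜 :=
  ∑ i ∈ P.B n, ((P.N n : ℝ)⁻¹ : 𝕜) • Finsupp.single (Sum.inr i) 1

lemma u_support (n : ℕ) : (P.u 𝕜 n).support ⊆ L (P.A n) := by
  classical
  intro x hx
  have := Finsupp.support_finset_sum hx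
  rw [Finset.mem_biUnion] at this
  obtain ⟨i, hi, hx⟩ := this
  have := Finsupp.support_single_subset hx
  rw [Finset.mem_singleton] at this
  exact (mem_L _ _).mpr ⟨i, hi, this.symm⟩

lemma g_support (n : ℕ) : (P.g 𝕜 n).support ⊆ Rr (P.B n) := by
  classical
  intro x hx
  have := Finsupp.support_finset_sum hx
  rw [Finset.mem_biUnion] at this
  obtain ⟨i, hi, hx⟩ := this
  have := Finsupp.support_single_subset (Finsupp.support_smul hx)
  rw [Finset.mem_singleton] at this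
  exact (mem_Rr _ _).mpr ⟨i, hi, this.symm⟩

lemma S_single (hp : 0 < p) (x : ℕ ⊕ ℕ) (a : 𝕜) : S p (Finsupp.single x a) = ‖a‖ ^ p := by
  rw [S_eq hp _ {x} Finsupp.support_single_subset]
  simp

lemma S_u (hp : 0 < p) (n : ℕ) : S p (P.u 𝕜 n) = (P.A n).card := by
  unfold u
  rw [S_sum_disj hp]
  · simp only [S_single 𝕜 hp, norm_one, Real.one_rpow, Finset.sum_const, nsmul_eq_mul, mul_one]
  · intro i _ j _ hij
    rw [Finset.disjoint_left]
    intro x hx hx'
    have h1 := Finsupp.support_single_subset hx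
    have h2 := Finsupp.support_single_subset hx'
    rw [Finset.mem_singleton] at h1 h2
    exact hij (Sum.inl_injective (h1.symm.trans h2))

lemma S_g (hp : 0 < p) (n : ℕ) : S p (P.g 𝕜 n) = (P.N n : ℝ) ^ (1 - p) := by
  unfold g
  rw [S_sum_disj hp]
  · have hN : (0 : ℝ) < P.N n := by
      have := P.hN n
      exact_mod_cast this
    simp only [S_smul hp, S_single 𝕜 hp, norm_one, Real.one_rpow, Finset.sum_const, nsmul_eq_mul,
      mul_one, P.card_B]
    rw [norm_inv, RCLike.norm_ofReal, abs_of_pos hN, Real.inv_rpow hN.le, ← Real.rpow_neg hN.le,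
      Real.rpow_sub hN, Real.rpow_one, Real.rpow_neg hN.le, div_eq_mul_inv]
  · intro i _ j _ hij
    rw [Finset.disjoint_left]
    intro x hx hx'
    have h1 := Finsupp.support_single_subset (Finsupp.support_smul hx)
    have h2 := Finsupp.support_single_subset (Finsupp.support_smul hx')
    rw [Finset.mem_singleton] at h1 h2
    exact hij (Sum.inr_injective (h1.symm.trans h2))

open Classical in
/-- the exhausting finite sets -/
noncomputable def T (k : ℕ) : Finset (ℕ ⊕ ℕ) := L (Finset.range (P.K k)) ∪ Rr (Finset.range (P.b k))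

lemma mem_T_inl (k i : ℕ) : Sum.inl i ∈ P.T k ↔ i < P.K k := by
  unfold T
  rw [Finset.mem_union, mem_L, mem_Rr]
  simp

lemma mem_T_inr (k i : ℕ) : Sum.inr i ∈ P.T k ↔ i < P.b k := by
  unfold T
  rw [Finset.mem_union, mem_L, mem_Rr]
  simp

/-- the data of the quotient -/
noncomputable def data (hp : 0 < p) (hp1 : p < 1) : Data 𝕜 (ℕ ⊕ ℕ) where
  p := p
  hp := hp
  hp1 := hp1
  u := P.u 𝕜
  g := P.g 𝕜
  T := P.T
  e := fun n => (1 / 2) ^ (n + 1)
  hdisj := fun m n hmn => by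
    rw [Finset.disjoint_left]
    intro x hx hx'
    obtain ⟨i, hi, rfl⟩ := (mem_Rr _ _).mp (P.g_support 𝕜 m hx)
    obtain ⟨j, hj, hij⟩ := (mem_Rr _ _).mp (P.g_support 𝕜 n hx')
    have := Sum.inr_injective hij
    subst this
    exact P.disj hmn hi hj
  hT := fun k l h => by
    intro x hx
    rcases x with i | i
    · rw [mem_T_inl] at hx ⊢
      exact lt_of_lt_of_le hx (P.K_mono h)
    · rw [mem_T_inr] at hx ⊢
      exact lt_of_lt_of_le hx (P.b_mono h)
  hTc := fun x => by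
    rcases x with i | i
    · exact ⟨i + 1, (P.mem_T_inl _ _).mpr (P.K_ge (i + 1))⟩
    · exact ⟨i + 1, (P.mem_T_inr _ _).mpr (P.b_ge (i + 1))⟩
  hu := fun n k h => by
    intro x hx
    obtain ⟨i, hi, rfl⟩ := (mem_L _ _).mp (P.u_support 𝕜 n hx)
    rw [mem_T_inl]
    exact P.lt_K h hi
  hg := fun n k h => by
    intro x hx
    obtain ⟨i, hi, rfl⟩ := (mem_Rr _ _).mp (P.g_support 𝕜 n hx)
    rw [mem_T_inr]
    unfold B at hi
    rw [Finset.mem_Ico] at hi
    exact lt_of_lt_of_le hi.2 (P.b_mono h)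
  hg' := fun n k h => by
    rw [Finset.disjoint_left]
    intro x hx hx'
    obtain ⟨i, hi, rfl⟩ := (mem_Rr _ _).mp (P.g_support 𝕜 n hx)
    rw [mem_T_inr] at hx'
    unfold B at hi
    rw [Finset.mem_Ico] at hi
    have := P.b_mono h
    omega
  he := (tendsto_pow_atTop_nhds_zero_of_lt_one (by norm_num) (by norm_num)).comp
    (tendsto_add_atTop_nat 1)
  he0 := fun n => by positivity
  he1 := fun n => by
    rw [pow_succ]
    have : (1 / 2 : ℝ) ^ n ≤ 1 := pow_le_one₀ (by norm_num) (by norm_num)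
    linarith
  hea := fun m n h => pow_le_pow_of_le_one (by norm_num) (by norm_num) (by omega)
  hS := fun n => by
    rw [P.S_g 𝕜 hp, P.S_u 𝕜 hp]
    have h2 := P.hK n
    have h3 : (1 / 2 : ℝ) ^ (n + 1) * 2 ^ (n + 1) = 1 := by rw [← mul_pow]; norm_num
    have h4 : (1 / 2 : ℝ) ^ (n + 1) * (2 ^ (n + 1) * ((P.A n).card : ℝ)) = (P.A n).card := by
      rw [← mul_assoc, h3, one_mul]
    rw [← h4]
    exact mul_le_mul_of_nonneg_left h2 (by positivity)

end Par

end construction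

section extension

variable {𝕜 : Type} [RCLike 𝕜] {Γ : Type} (D : Data 𝕜 Γ)

lemma q_rel (n : ℕ) : D.q (D.u n) = D.q (D.g n) := by
  have h1 : D.R (Finsupp.single n 1) = D.u n - D.g n := by
    rw [D.R_eq _ {n} Finsupp.support_single_subset]
    simp
  have h2 : ‖D.q (D.u n) - D.q (D.g n)‖ = 0 := by
    rw [← D.q_sub, D.norm_q]
    have h4 := D.rho_sub_R (D.u n - D.g n) (Finsupp.single n 1)
    rw [h1, sub_self, D.rho_zero] at h4
    exact h4.symm
  exact sub_eq_zero.mp (norm_eq_zero.mp h2)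

/-- functionals on finitely supported vectors extend -/
lemma exists_ext (f : (Γ →₀ 𝕜) →ₗ[𝕜] 𝕜) (hf : ∀ v, ‖f v‖ ≤ D.rho v ^ (1 / D.p)) :
    ∃ F : D.Sp →ₗ[𝕜] 𝕜, (∀ x, ‖F x‖ ≤ NN D x) ∧ ∀ v, F (D.q v) = f v := by
  let f0 : Data.Pre D → 𝕜 := fun v => f (show Γ →₀ 𝕜 from v)
  have hsub : ∀ v w : Data.Pre D, f0 v - f0 w = f (show Γ →₀ 𝕜 from (v - w)) := fun v w =>
    (f.map_sub _ _).symm
  have huc : UniformContinuous f0 := by
    rw [Metric.uniformContinuous_iff]
    intro ε hε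
    refine ⟨ε ^ D.p, Real.rpow_pos_of_pos hε _, fun {v w} h => ?_⟩
    rw [dist_eq_norm] at h ⊢
    rw [hsub]
    refine lt_of_le_of_lt (hf _) ?_
    have h2 := Real.rpow_lt_rpow (norm_nonneg _) h (pinv_pos D)
    rwa [← Real.rpow_mul hε.le, mul_one_div_cancel D.hp.ne', Real.rpow_one] at h2
  set F0 : D.Sp → 𝕜 := UniformSpace.Completion.extension f0 with hF0
  have hcont : Continuous F0 := UniformSpace.Completion.continuous_extension
  have hcoe : ∀ v : Data.Pre D, F0 (v : UniformSpace.Completion (Data.Pre D)) = f0 v := fun v =>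
    UniformSpace.Completion.extension_coe huc v
  refine ⟨{ toFun := F0, map_add' := ?_, map_smul' := ?_ }, ?_, fun v => hcoe v⟩
  · intro x y
    induction x, y using UniformSpace.Completion.induction_on₂ with
    | hp =>
      exact isClosed_eq (hcont.comp continuous_add)
        ((hcont.comp continuous_fst).add (hcont.comp continuous_snd))
    | ih v w =>
      rw [← UniformSpace.Completion.coe_add, hcoe, hcoe, hcoe]
      exact f.map_add _ _
  · intro a x
    induction x using UniformSpace.Completion.induction_on with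
    | hp =>
      exact isClosed_eq (hcont.comp (continuous_const_smul a)) (hcont.const_smul a)
    | ih v =>
      rw [← UniformSpace.Completion.coe_smul, hcoe, hcoe]
      exact f.map_smul _ _
  · intro x
    change ‖F0 x‖ ≤ NN D x
    induction x using UniformSpace.Completion.induction_on with
    | hp =>
      apply isClosed_le hcont.norm
      unfold NN
      exact continuous_norm.rpow_const fun x => Or.inr (pinv_pos D).le
    | ih v =>
      rw [hcoe]
      unfold NN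
      rw [UniformSpace.Completion.norm_coe]
      exact hf _

lemma sum_norm_le_S {p : ℝ} (hp : 0 < p) (hp1 : p < 1) (v : Γ →₀ 𝕜) :
    ∑ i ∈ v.support, ‖v i‖ ≤ S p v ^ (1 / p) := by
  have hpi : 0 < 1 / p := by positivity
  have key : (∑ i ∈ v.support, ‖v i‖) ^ p ≤ S p v := by
    have : ∀ s : Finset Γ, (∑ i ∈ s, ‖v i‖) ^ p ≤ ∑ i ∈ s, ‖v i‖ ^ p := by
      classical
      intro s
      induction s using Finset.induction_on with
      | empty => simp [Real.zero_rpow hp.ne']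
      | insert a s ha ih =>
        rw [Finset.sum_insert ha, Finset.sum_insert ha]
        exact le_trans (rpow_add_le hp hp1 (norm_nonneg _)
          (Finset.sum_nonneg fun _ _ => norm_nonneg _)) (by linarith)
    exact this _
  have h0 : 0 ≤ ∑ i ∈ v.support, ‖v i‖ := Finset.sum_nonneg fun _ _ => norm_nonneg _
  have h1 := Real.rpow_le_rpow (Real.rpow_nonneg h0 _) key hpi.le
  rwa [← Real.rpow_mul h0, mul_one_div_cancel hp.ne', Real.rpow_one] at h1

/-- functionals with bounded coefficients vanishing on the relations extend -/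
lemma exists_functional (ψ : Γ → 𝕜) (hψ : ∀ i, ‖ψ i‖ ≤ 1)
    (hrel : ∀ n, Finsupp.linearCombination 𝕜 ψ (D.u n) = Finsupp.linearCombination 𝕜 ψ (D.g n)) :
    ∃ F : D.Sp →ₗ[𝕜] 𝕜, (∀ x, ‖F x‖ ≤ NN D x) ∧
      ∀ v, F (D.q v) = Finsupp.linearCombination 𝕜 ψ v := by
  apply exists_ext D (Finsupp.linearCombination 𝕜 ψ)
  have h1 : ∀ c, Finsupp.linearCombination 𝕜 ψ (D.R c) = 0 := by
    intro c
    unfold Data.R
    rw [map_sum]
    apply Finset.sum_eq_zero
    intro n _
    rw [map_smul, map_sub, hrel, sub_self, smul_zero]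
  have h2 : ∀ v : Γ →₀ 𝕜, ‖Finsupp.linearCombination 𝕜 ψ v‖ ≤ S D.p v ^ (1 / D.p) := by
    intro v
    refine le_trans ?_ (sum_norm_le_S D.hp D.hp1 v)
    rw [Finsupp.linearCombination_apply, Finsupp.sum]
    refine le_trans (norm_sum_le _ _) (Finset.sum_le_sum fun i _ => ?_)
    rw [norm_smul]
    calc ‖v i‖ * ‖ψ i‖ ≤ ‖v i‖ * 1 := mul_le_mul_of_nonneg_left (hψ i) (norm_nonneg _)
      _ = ‖v i‖ := mul_one _
  intro v
  have h3 : ‖Finsupp.linearCombination 𝕜 ψ v‖ ^ D.p ≤ D.rho v := by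
    apply D.le_rho
    intro c
    have h4 := h2 (v - D.R c)
    rw [map_sub, h1, sub_zero] at h4
    have h5 := Real.rpow_le_rpow (norm_nonneg _) h4 D.hp.le
    rwa [← Real.rpow_mul (S_nonneg _), one_div_mul_cancel D.hp.ne', Real.rpow_one] at h5
  have h5 := Real.rpow_le_rpow (Real.rpow_nonneg (norm_nonneg _) _) h3 (pinv_pos D).le
  rwa [← Real.rpow_mul (norm_nonneg _), mul_one_div_cancel D.hp.ne', Real.rpow_one] at h5

end extension

section final

variable {𝕜 : Type} [RCLike 𝕜] {p : ℝ} (P : Par p)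

open Classical in
/-- the coefficients of the `i`-th functional -/
noncomputable def psi (i : ℕ) : ℕ ⊕ ℕ → 𝕜
  | Sum.inl j => if j = i then 1 else 0
  | Sum.inr l => if ∃ n, l ∈ P.B n ∧ i ∈ P.A n then 1 else 0

lemma psi_le (i : ℕ) (x : ℕ ⊕ ℕ) : ‖(psi P i x : 𝕜)‖ ≤ 1 := by
  rcases x with j | l
  · dsimp only [psi]; split_ifs <;> simp
  · dsimp only [psi]; split_ifs <;> simp

lemma lc_u (i n : ℕ) : Finsupp.linearCombination 𝕜 (psi P i : ℕ ⊕ ℕ → 𝕜) (P.u 𝕜 n) =
    if i ∈ P.A n then 1 else 0 := by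
  unfold Par.u
  rw [map_sum]
  simp only [Finsupp.linearCombination_single, one_smul]
  simp only [psi]
  rw [Finset.sum_ite_eq']

lemma lc_g (i n : ℕ) : Finsupp.linearCombination 𝕜 (psi P i : ℕ ⊕ ℕ → 𝕜) (P.g 𝕜 n) =
    if i ∈ P.A n then 1 else 0 := by
  classical
  unfold Par.g
  rw [map_sum]
  have h : ∀ l ∈ P.B n, Finsupp.linearCombination 𝕜 (psi P i : ℕ ⊕ ℕ → 𝕜)
      (((P.N n : ℝ)⁻¹ : 𝕜) • Finsupp.single (Sum.inr l) 1) =
      ((P.N n : ℝ)⁻¹ : 𝕜) * (if i ∈ P.A n then 1 else 0) := by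
    intro l hl
    rw [map_smul, Finsupp.linearCombination_single, one_smul, smul_eq_mul]
    congr 1
    have h2 : (∃ m, l ∈ P.B m ∧ i ∈ P.A m) ↔ i ∈ P.A n := by
      constructor
      · rintro ⟨m, hm, hi⟩
        by_cases hmn : m = n
        · rwa [← hmn]
        · exact (P.disj hmn hm hl).elim
      · intro hi
        exact ⟨n, hl, hi⟩
    simp only [psi, h2]
  rw [Finset.sum_congr rfl h, Finset.sum_const, P.card_B, nsmul_eq_mul, ← mul_assoc]
  have hN : (P.N n : 𝕜) ≠ 0 := by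
    have := P.hN n
    exact_mod_cast (show P.N n ≠ 0 by omega)
  have h3 : (P.N n : 𝕜) * (((P.N n : ℝ) : 𝕜))⁻¹ = 1 := by
    rw [RCLike.ofReal_natCast]
    exact mul_inv_cancel₀ hN
  rw [h3, one_mul]

/-- a sequence all of whose finite sums are bounded tends to zero -/
lemma tendsto_of_bounded_sums (a : ℕ → 𝕜) (M : ℝ) (h : ∀ s : Finset ℕ, ‖∑ i ∈ s, a i‖ ≤ M) :
    Tendsto a atTop (𝓝 0) := by
  classical
  have real : ∀ b : ℕ → ℝ, (∀ s : Finset ℕ, |∑ i ∈ s, b i| ≤ M) → Summable fun i => |b i| := by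
    intro b hb
    apply summable_of_sum_le (c := 2 * M) (fun _ => abs_nonneg _)
    intro s
    have h1 : ∑ i ∈ s, |b i| = ∑ i ∈ s.filter (fun i => 0 ≤ b i), b i -
        ∑ i ∈ s.filter (fun i => ¬ 0 ≤ b i), b i := by
      rw [← Finset.sum_filter_add_sum_filter_not s (fun i => 0 ≤ b i), sub_eq_add_neg,
        ← Finset.sum_neg_distrib]
      congr 1
      · apply Finset.sum_congr rfl
        intro i hi
        exact abs_of_nonneg (Finset.mem_filter.mp hi).2
      · apply Finset.sum_congr rfl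
        intro i hi
        exact abs_of_neg (not_le.mp (Finset.mem_filter.mp hi).2)
    rw [h1]
    have h2 := abs_le.mp (hb (s.filter (fun i => 0 ≤ b i)))
    have h3 := abs_le.mp (hb (s.filter (fun i => ¬ 0 ≤ b i)))
    linarith [h2.2, h3.1]
  have hre := (real (fun i => RCLike.re (a i)) (fun s => by
    rw [← map_sum]
    exact le_trans (RCLike.abs_re_le_norm _) (h s))).tendsto_atTop_zero
  have him := (real (fun i => RCLike.im (a i)) (fun s => by
    rw [← map_sum]
    exact le_trans (RCLike.abs_im_le_norm _) (h s))).tendsto_atTop_zero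
  have hsum := hre.add him
  rw [add_zero] at hsum
  apply squeeze_zero_norm _ hsum
  intro i
  have h1 := norm_add_le ((RCLike.re (a i) : ℝ) : 𝕜) ((RCLike.im (a i) : 𝕜) * RCLike.I)
  rw [RCLike.re_add_im, norm_mul, RCLike.norm_ofReal, RCLike.norm_ofReal] at h1
  have h2 : ‖(RCLike.I : 𝕜)‖ ≤ 1 := by
    rcases RCLike.I_eq_zero_or_im_I_eq_one (K := 𝕜) with h0 | h0
    · rw [h0]; simp
    · have h3 : (RCLike.I : 𝕜) * RCLike.I = -1 := by
        rcases RCLike.I_mul_I (K := 𝕜) with h4 | h4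
        · rw [h4] at h0; simp at h0
        · exact h4
      have h4 : ‖(RCLike.I : 𝕜)‖ * ‖(RCLike.I : 𝕜)‖ = 1 := by
        rw [← norm_mul, h3, norm_neg, norm_one]
      nlinarith [norm_nonneg (RCLike.I : 𝕜)]
  have h3 : |RCLike.im (a i)| * ‖(RCLike.I : 𝕜)‖ ≤ |RCLike.im (a i)| :=
    mul_le_of_le_one_right (abs_nonneg _) h2
  linarith

variable (D : Data 𝕜 (ℕ ⊕ ℕ))

lemma NN_single_le (x : ℕ ⊕ ℕ) : NN D (D.q (Finsupp.single x 1)) ≤ 1 := by
  unfold NN
  apply Real.rpow_le_one (norm_nonneg _) _ (pinv_pos _).le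
  rw [Data.norm_q]
  refine le_trans (Data.rho_le_S _ _) ?_
  rw [Par.S_single 𝕜 D.hp]
  simp

lemma q_sum {ι : Type} (s : Finset ι) (v : ι → ((ℕ ⊕ ℕ) →₀ 𝕜)) :
    D.q (∑ i ∈ s, v i) = ∑ i ∈ s, D.q (v i) := by
  rw [← D.Q_apply, map_sum]
  exact Finset.sum_congr rfl fun i _ => D.Q_apply _

lemma notSchur (hu : D.u = P.u 𝕜) (hg : D.g = P.g 𝕜) (E : Type) [NormedAddCommGroup E]
    [NormedSpace 𝕜 E] (J : D.Sp →ₗ[𝕜] E) (hJ : IsEnvelope (NN D) J) :
    ¬ IsSchur 𝕜 E := by
  intro hE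
  have h0 := hE (fun i => J (D.q (Finsupp.single (Sum.inl i) 1))) (by
    intro f
    apply tendsto_of_bounded_sums _ ‖f‖
    intro s
    obtain ⟨n, rfl⟩ := P.hA s
    have h1 : ∑ i ∈ P.A n, f (J (D.q (Finsupp.single (Sum.inl i) 1))) =
        f (J (D.q (P.u 𝕜 n))) := by
      unfold Par.u
      rw [q_sum, map_sum, map_sum]
    have h2 : D.q (P.u 𝕜 n) = D.q (P.g 𝕜 n) := by
      have := q_rel D n
      rwa [hu, hg] at this
    have h3 : f (J (D.q (P.g 𝕜 n))) = ∑ i ∈ P.B n, ((P.N n : ℝ)⁻¹ : 𝕜) *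
        f (J (D.q (Finsupp.single (Sum.inr i) 1))) := by
      unfold Par.g
      rw [q_sum, map_sum, map_sum]
      apply Finset.sum_congr rfl
      intro i _
      rw [D.q_smul, map_smul, map_smul, smul_eq_mul]
    rw [h1, h2, h3]
    refine le_trans (norm_sum_le _ _) ?_
    have hN : (0 : ℝ) < P.N n := by
      have := P.hN n
      exact_mod_cast this
    have h4 : ∀ i ∈ P.B n, ‖((P.N n : ℝ)⁻¹ : 𝕜) *
        f (J (D.q (Finsupp.single (Sum.inr i) 1)))‖ ≤ (P.N n : ℝ)⁻¹ * ‖f‖ := by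
      intro i _
      rw [norm_mul, norm_inv, RCLike.norm_ofReal, abs_of_pos hN]
      apply mul_le_mul_of_nonneg_left _ (inv_nonneg.mpr hN.le)
      refine le_trans (f.le_opNorm _) (mul_le_of_le_one_right (norm_nonneg f) ?_)
      exact le_trans (hJ.1 _) (NN_single_le D _)
    refine le_trans (Finset.sum_le_sum h4) ?_
    rw [Finset.sum_const, P.card_B, nsmul_eq_mul, ← mul_assoc, mul_inv_cancel₀ hN.ne', one_mul])
  have h1 : ∀ i, 1 ≤ ‖J (D.q (Finsupp.single (Sum.inl i) 1))‖ := by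
    intro i
    obtain ⟨F, hF1, hF2⟩ := exists_functional D (psi P i) (psi_le P i) (fun n => by
      rw [hu, hg, lc_u, lc_g])
    obtain ⟨T', hT1, hT2⟩ := hJ.2 𝕜 F hF1
    have h4 := hT1 (J (D.q (Finsupp.single (Sum.inl i) 1)))
    rw [hT2, hF2, Finsupp.linearCombination_single] at h4
    simpa [psi] using h4
  have h2 : Tendsto (fun i => ‖J (D.q (Finsupp.single (Sum.inl i) 1))‖) atTop (𝓝 0) := by
    have := h0.norm
    rwa [norm_zero] at this
  have h3 := ge_of_tendsto' h2 h1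
  norm_num at h3

end final

/-- **Negative answer.** For every `0 < p < 1` and both scalar fields there is a quasi-Banach space
with the Schur `p`-property whose Banach envelope does not have the Schur property. -/
theorem result (𝕜 : Type) [RCLike 𝕜] (p : ℝ) (hp : 0 < p) (hp1 : p < 1) :
    ∃ (X : Type) (_ : AddCommGroup X) (_ : Module 𝕜 X) (N : X → ℝ),
      IsQuasiBanach 𝕜 N ∧ SchurPSeq 𝕜 p N ∧
        (∃ (E : Type) (_ : NormedAddCommGroup E) (_ : NormedSpace 𝕜 E) (_ : CompleteSpace E)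
          (J : X →ₗ[𝕜] E), IsEnvelope N J) ∧
        ∀ (E : Type) [NormedAddCommGroup E] [NormedSpace 𝕜 E] [CompleteSpace E] (J : X →ₗ[𝕜] E),
          IsEnvelope N J → ¬ IsSchur 𝕜 E := by
  obtain ⟨P⟩ := exists_par p hp1
  exact ⟨(P.data 𝕜 hp hp1).Sp, inferInstance, inferInstance, NN (P.data 𝕜 hp hp1),
    isQuasiBanach _, schurPSeq (P.data 𝕜 hp hp1),
    ⟨Env 𝕜 (NN (P.data 𝕜 hp hp1)), inferInstance, inferInstance, inferInstance, JJ 𝕜 _,
      isEnvelope_JJ _ (NN_nonneg _)⟩,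
    fun E _ _ _ J hJ => notSchur P (P.data 𝕜 hp hp1) rfl rfl E J hJ⟩

end Pool.Agent.Results.MP_4b0054_an.EnvelopeNotSchur
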